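import Mathlib
import Pool.Agent.TP975.RP.Sj6

/-!
The prime values of almost all polynomials in all short intervals at once.
-/

set_option autoImplicit false

namespace Pool.Agent.Results.MP_a1177c_nt.AllShortIntervals

open Finset

/-- the value at `t` of the polynomial with the coefficients `a 0, ..., a d` -/
def value {d : ℕ} (a : Fin (d + 1) → ℤ) (t : ℤ) : ℤ := ∑ c, a c * t ^ (c : ℕ)

/-- the polynomials of degree at most `d` with coefficients in `[-H, H]` -/
noncomputable def box (d H : ℕ) : Finset (Fin (d + 1) → ℤ) := Fintype.piFinset fun _ => Icc (-(H : ℤ)) H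

/-- the number of `1 ≤ n ≤ N` such that `|f (M + n)|` is a prime -/
def primeCount {d : ℕ} (f : Fin (d + 1) → ℤ) (M N : ℕ) : ℕ :=
  ((Icc 1 N).filter (fun n : ℕ => (value f ((M + n : ℕ) : ℤ)).natAbs.Prime)).card

/-- the number of residue classes `n` modulo `p` such that `p` divides `f (n)`, `p` prime -/
def omega {d : ℕ} (f : Fin (d + 1) → ℤ) (p : ℕ) : ℕ :=
  ((range p).filter (fun n : ℕ => (p : ℤ) ∣ value f (n : ℤ))).card

/-- the product over the primes up to `w` in the constant of the conjecture -/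
noncomputable def constant {d : ℕ} (w : ℕ) (f : Fin (d + 1) → ℤ) : ℝ :=
  ∏ p ∈ (Icc 1 w).filter Nat.Prime, (1 - (omega f p : ℝ) / p) * (1 - 1 / (p : ℝ))⁻¹

open Classical in
/-- Let `d ≥ 2`. Almost all polynomials `f` of degree at most `d` with coefficients of size at most `H` either have a
fixed prime divisor or satisfy the following for ALL intervals `(M, M + N]` contained in `[1, X]`, `X ≤ log ^ A H`, of
length `N ≥ (X log ^ (d + ε) H) ^ (1 / (d + 1))`: the number of `n` in the interval with `|f (n)|` prime is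
`constant w f * N / log H` up to a relative error `(log log H) ^ (-B)`. The proportion of the exceptional
polynomials is at most `(log log H) ^ (-B)`. -/
theorem result (d A B : ℕ) (hd : 2 ≤ d) (ε : ℝ) (hε : 0 < ε) : ∃ E : ℕ, ∀ E' : ℕ, ∃ H₀ : ℕ, ∀ H : ℕ, H₀ ≤ H →
    ∀ w : ℕ, Real.log (Real.log H) ^ E ≤ w → (w : ℝ) ≤ Real.log (Real.log H) ^ E' →
    (((box d H).filter (fun f => (∀ p ≤ w, p.Prime → omega f p < p) ∧ ∃ M N : ℕ,
      ((M + N : ℕ) : ℝ) ≤ Real.log H ^ A ∧ ((M + N : ℕ) : ℝ) * Real.log H ^ ((d : ℝ) + ε) ≤ (N : ℝ) ^ (d + 1) ∧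
      constant w f * N / Real.log H / Real.log (Real.log H) ^ B <
        |(primeCount f M N : ℝ) - constant w f * N / Real.log H|)).card : ℝ) ≤
      (box d H).card / Real.log (Real.log H) ^ B :=
  Pool.Agent.TP975.RP.all_int1 d A B hd ε hε

end Pool.Agent.Results.MP_a1177c_nt.AllShortIntervals
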