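import Mathlib
import Pool.Agent.TP975.RP.Ar1

/-!
Prime values of almost all polynomials at the elements of an arbitrary set of integers, or of `k`-tuples of integers.
-/

set_option autoImplicit false

namespace Pool.Agent.Results.MP_a1177c_nt.ArbitraryArguments

open Finset

/-- the value at `t` of the polynomial with the coefficients `a 0, ..., a d` -/
def value {d : ℕ} (a : Fin (d + 1) → ℤ) (t : ℤ) : ℤ := ∑ c, a c * t ^ (c : ℕ)

/-- the polynomials of degree at most `d` with coefficients in `[-H, H]` -/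
noncomputable def box (d H : ℕ) : Finset (Fin (d + 1) → ℤ) := Fintype.piFinset fun _ => Icc (-(H : ℤ)) H

/-- the number of the tuples `t` in `T` such that all `|f (t j)|` are primes -/
def primeTuples {d k : ℕ} (f : Fin (d + 1) → ℤ) (T : Finset (Fin k → ℤ)) : ℕ :=
  (T.filter (fun t => ∀ j, (value f (t j)).natAbs.Prime)).card

/-- the number of the tuples `t` in `T` such that no `f (t j)` is divisible by a prime up to `w` -/
def siftedTuples {d k : ℕ} (w : ℕ) (f : Fin (d + 1) → ℤ) (T : Finset (Fin k → ℤ)) : ℕ :=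
  (T.filter (fun t => ∀ j, ∀ p ≤ w, p.Prime → ¬ (p : ℤ) ∣ value f (t j))).card

/-- Let `1 ≤ k ≤ d` and let `T` be any set of `k`-tuples of distinct integers of size at most `log ^ A H`, with at
least `log ^ (k + ε) H` elements, and such that only `O(|T|)` pairs of elements have a common entry. For almost all
polynomials `f` of degree at most `d` with coefficients in `[-H, H]` the number of the elements `t` of `T` with all
`|f (t j)|` prime is the number of those for which no `f (t j)` has a prime factor up to `w`, multiplied by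
`∏ p ≤ w, (1 - 1 / p) ^ (-k) / log ^ k H`, up to `(|T| / log ^ k H) / (log log H) ^ B`. -/
theorem result (d k : ℕ) (hk : 1 ≤ k) (hkd : k ≤ d) (c₀ A B : ℕ) (ε : ℝ) (hε : 0 < ε) : ∃ E : ℕ, ∀ E' : ℕ, ∃ H₀ : ℕ,
    ∀ H : ℕ, H₀ ≤ H → ∀ w : ℕ, Real.log (Real.log H) ^ E ≤ w → (w : ℝ) ≤ Real.log (Real.log H) ^ E' →
    ∀ T : Finset (Fin k → ℤ), (∀ t ∈ T, Function.Injective t) → (∀ t ∈ T, ∀ j, |(t j : ℝ)| ≤ Real.log H ^ A) →
    ((T ×ˢ T).filter (fun q => ∃ j j', q.1 j = q.2 j')).card ≤ c₀ * T.card →
    Real.log H ^ ((k : ℝ) + ε) ≤ T.card →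
    (((box d H).filter (fun f => (T.card : ℝ) / Real.log H ^ k / Real.log (Real.log H) ^ B <
      |(primeTuples f T : ℝ) - (∏ p ∈ (Icc 1 w).filter Nat.Prime, (1 - 1 / (p : ℝ))⁻¹) ^ k *
        (siftedTuples w f T : ℝ) / Real.log H ^ k|)).card : ℝ) ≤
      (box d H).card / Real.log (Real.log H) ^ B :=
  Pool.Agent.TP975.RP.arb d k hk hkd c₀ A B ε hε

end Pool.Agent.Results.MP_a1177c_nt.ArbitraryArguments
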