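import Mathlib
import Pool.Agent.TP975.RP.Mx3

/-!
The number of the first arguments at which a random quadratic polynomial has a prime value: five moments.
-/

set_option autoImplicit false

namespace Pool.Agent.Results.MP_a1177c_nt.FirstFiveMoments

open Finset

/-- the value at `t` of the polynomial with the coefficients `a 0, ..., a d` -/
def value {d : ℕ} (a : Fin (d + 1) → ℤ) (t : ℤ) : ℤ := ∑ c, a c * t ^ (c : ℕ)

/-- the polynomials of degree at most `d` with coefficients in `[-H, H]` -/
noncomputable def box (d H : ℕ) : Finset (Fin (d + 1) → ℤ) := Fintype.piFinset fun _ => Icc (-(H : ℤ)) H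

/-- the number of `1 ≤ n ≤ x` such that `|f (n)|` is a prime -/
def primeCount {d : ℕ} (f : Fin (d + 1) → ℤ) (x : ℕ) : ℕ :=
  ((Icc 1 x).filter (fun n : ℕ => (value f (n : ℤ)).natAbs.Prime)).card

/-- the number of zeros of `f` modulo `p` -/
def omega {d : ℕ} (f : Fin (d + 1) → ℤ) (p : ℕ) : ℕ := ((range p).filter (fun n : ℕ => (p : ℤ) ∣ value f (n : ℤ))).card

/-- the product over the primes up to `w` in the constant of the conjecture -/
noncomputable def constant {d : ℕ} (w : ℕ) (f : Fin (d + 1) → ℤ) : ℝ :=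
  ∏ p ∈ (Icc 1 w).filter Nat.Prime, (1 - (omega f p : ℝ) / p) * (1 - 1 / (p : ℝ))⁻¹

/-- For random polynomials `f` of degree at most `d` with coefficients in `[-H, H]`, the factorial moments of
the orders `r ≤ 2 * d + 1` of the number of `n ≤ lam * log H` with `|f n|` prime are asymptotically those of a
Poisson distribution with the random parameter `lam * constant w f`. For quadratic polynomials these are the
first five moments. -/
theorem result (d r : ℕ) (hd : 1 ≤ d) (hr : r ≤ 2 * d + 1) (lam : ℝ) (hlam : 0 < lam) (δ : ℝ) (hδ : 0 < δ) :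
    ∃ w₀ : ℕ, ∀ w : ℕ, w₀ ≤ w → ∃ H₀ : ℕ, ∀ H : ℕ, H₀ ≤ H →
    |∑ f ∈ box d H, ((primeCount f ⌊lam * Real.log H⌋₊).descFactorial r : ℝ) -
      ∑ f ∈ box d H, (lam * constant w f) ^ r| ≤ δ * (box d H).card :=
  Pool.Agent.TP975.RP.mom d r hd hr lam hlam δ hδ

end Pool.Agent.Results.MP_a1177c_nt.FirstFiveMoments
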