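import Mathlib
import Pool.Agent.TP975.RP.Cd9

/-!
The formula of Hardy and Littlewood for almost all polynomials which take prime values at given points.
-/

set_option autoImplicit false

namespace Pool.Agent.Results.MP_a1177c_nt.PrimesAtGivenPoints

open Finset

/-- the value at `t` of the polynomial with the coefficients `f 0, ..., f d` -/
def value {d : ℕ} (f : Fin (d + 1) → ℤ) (t : ℤ) : ℤ := ∑ c, f c * t ^ (c : ℕ)

/-- the polynomials of degree at most `d` with coefficients in `[-H, H]` for which `|f (t i)|` is a prime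
for every `i` -/
noncomputable def given (d H : ℕ) {s : ℕ} (t : Fin s → ℤ) : Finset (Fin (d + 1) → ℤ) :=
  (Fintype.piFinset fun _ => Icc (-(H : ℤ)) H).filter (fun f => ∀ i, (value f (t i)).natAbs.Prime)

/-- the number of `1 ≤ n ≤ x` such that `|f n|` is a prime -/
def primeCount {d : ℕ} (f : Fin (d + 1) → ℤ) (x : ℕ) : ℕ :=
  ((Icc 1 x).filter (fun n : ℕ => (value f (n : ℤ)).natAbs.Prime)).card

/-- the number of the solutions of `f n ≡ 0` modulo `p` -/
def omega {d : ℕ} (f : Fin (d + 1) → ℤ) (p : ℕ) : ℕ :=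
  ((range p).filter (fun n : ℕ => (p : ℤ) ∣ value f (n : ℤ))).card

/-- the product over the primes up to `w` in the constant of the conjecture -/
noncomputable def constant {d : ℕ} (w : ℕ) (f : Fin (d + 1) → ℤ) : ℝ :=
  ∏ p ∈ (Icc 1 w).filter Nat.Prime, (1 - (omega f p : ℝ) / p) * (1 - 1 / (p : ℝ))⁻¹

/-- Let `t i`, `i ≤ s`, be distinct integers, where `1 ≤ s ≤ 2 d - 1`; for quadratic polynomials `s = 3` is
allowed. The number of the polynomials of degree at most `d` with coefficients of size at most `H` for which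
all the `|f (t i)|` are primes is at least `c (2 H + 1) ^ (d + 1) / log ^ s H`, and almost all of them satisfy
the formula of Hardy and Littlewood for the number of their prime values up to `x`, uniformly for
`log ^ (1 + ε) H ≤ x ≤ log ^ A H`. -/
theorem result (d s : ℕ) (hs1 : 1 ≤ s) (hs : s + 1 ≤ 2 * d) (t : Fin s → ℤ) (ht : Function.Injective t)
    (ε : ℝ) (hε : 0 < ε) (A : ℕ) (δ : ℝ) (hδ : 0 < δ) : ∃ c : ℝ, 0 < c ∧ ∃ w₀ : ℕ, ∀ w : ℕ, w₀ ≤ w →
    ∃ H₀ : ℕ, ∀ H : ℕ, H₀ ≤ H → c * ((2 * H + 1 : ℝ) ^ (d + 1) / Real.log H ^ s) ≤ (given d H t).card ∧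
    ∀ x : ℕ, Real.log H ^ (1 + ε) ≤ x → (x : ℝ) ≤ Real.log H ^ A →
    (((given d H t).filter (fun f => δ * (constant w f * x / Real.log H) <
      |(primeCount f x : ℝ) - constant w f * x / Real.log H|)).card : ℝ) ≤ δ * (given d H t).card := by
  obtain ⟨c, hc, H1, h1⟩ := Pool.Agent.TP975.RP.given_ge d s hs t ht
  obtain ⟨w0, h0⟩ := Pool.Agent.TP975.RP.given_main d s hs1 hs t ht ε hε A δ hδ
  refine ⟨c, hc, w0, fun w hw => ?_⟩
  obtain ⟨H2, h2⟩ := h0 w hw
  exact ⟨max H1 H2, fun H hH => ⟨h1 H (le_trans (le_max_left _ _) hH),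
    fun x hx hxA => h2 H (le_trans (le_max_right _ _) hH) x hx hxA⟩⟩

end Pool.Agent.Results.MP_a1177c_nt.PrimesAtGivenPoints
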